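import Pool.Agent.Helper685.Sol.Main

/-! # A nonstandard model of PA without a Solovay family changing value at most once

The definitions of the statement are in `Pool.Agent.Helper685.Sol.Defs`. -/

namespace Pool.Agent.Results.MP_1378ec_lc.NoOnceFamily

open Pool.Agent.Helper685.Sol

/-- There is a nonstandard model `A` of PA with universe `ℕ` such that every Solovay family for
the complete theory of `A` relative to `A` has a member `t n`, `n ≥ 1`, which changes value at
least twice. -/
theorem result : ∃ A : Str ℕ, IsPA A ∧ Nonstandard A ∧
    ∀ t : ℕ → ℕ → ℕ, IsSolovayFamily (diagram A) (thSig A) t →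
      ∃ n ≥ 1, ¬ ChangesAtMostOnce (t n) :=
  main

end Pool.Agent.Results.MP_1378ec_lc.NoOnceFamily
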